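import Pool.Agent.helper27.CHS.Spec

/-!
Row chs:MN (MP_5628fe_nt, project chs): weights on natural numbers.
-/

set_option autoImplicit false

open Finset

namespace Pool.Agent.CHS

open Pool.Agent.SX

/-- sum over the divisors of a function that vanishes outside the squarefree numbers -/
theorem MN_div (a : ℕ) (ha : a ≠ 0) (f : ℕ → ℝ) (hf : ∀ m, ¬ Squarefree m → f m = 0) :
    ∑ m ∈ a.divisors, f m = ∑ S ∈ a.primeFactors.powerset, f (∏ p ∈ S, p) := by
  have h1 : ∑ m ∈ a.divisors, f m = ∑ m ∈ a.divisors with Squarefree m, f m := by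
    rw [Finset.sum_filter]
    apply Finset.sum_congr rfl
    intro m _
    by_cases hm : Squarefree m
    · rw [if_pos hm]
    · rw [if_neg hm, hf m hm]
  rw [h1, Nat.sum_divisors_filter_squarefree ha]
  have h2 : (UniqueFactorizationMonoid.normalizedFactors a).toFinset = a.primeFactors := by
    rw [Nat.factors_eq]
    rfl
  rw [h2]
  apply Finset.sum_congr rfl
  intro S _
  congr 1
  rw [Finset.prod_val]
  rfl

/-- sum over the subsets of a disjoint union -/
theorem MN_split (A B : Finset ℕ) (hd : Disjoint A B) (f : Finset ℕ → ℝ) :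
    ∑ S ∈ (A ∪ B).powerset, f S = ∑ S ∈ A.powerset, ∑ T ∈ B.powerset, f (S ∪ T) := by
  rw [← Finset.sum_product']
  symm
  apply Finset.sum_nbij' (fun x => x.1 ∪ x.2) (fun S => (S ∩ A, S ∩ B))
  · intro x hx
    rw [mem_product, mem_powerset, mem_powerset] at hx
    rw [mem_powerset]
    exact union_subset_union hx.1 hx.2
  · intro S hS
    rw [mem_product, mem_powerset, mem_powerset]
    exact ⟨inter_subset_right, inter_subset_right⟩
  · intro x hx
    rw [mem_product, mem_powerset, mem_powerset] at hx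
    have hd' := disjoint_left.1 hd
    ext q
    · simp only [mem_inter, mem_union]
      constructor
      · rintro ⟨h1 | h1, h2⟩
        · exact h1
        · exact absurd (hx.2 h1) (hd' h2)
      · intro h1
        exact ⟨Or.inl h1, hx.1 h1⟩
    · simp only [mem_inter, mem_union]
      constructor
      · rintro ⟨h1 | h1, h2⟩
        · exact absurd h2 (hd' (hx.1 h1))
        · exact h1
      · intro h1
        exact ⟨Or.inr h1, hx.2 h1⟩
  · intro S hS
    rw [mem_powerset] at hS
    change S ∩ A ∪ S ∩ B = S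
    rw [← inter_union_distrib_left, inter_eq_left]
    exact hS
  · intro x _
    rfl

theorem MN_P0 (x : ℝ) (hPA : PA_stmt) (q : ℕ) : q ∈ P0 x ↔ q.Prime ∧ 7 ≤ q ∧ Real.log q < x := by
  rw [P0, hPA.1]
  constructor
  · rintro ⟨h1, h2, h3⟩
    refine ⟨h1, ?_, h3⟩
    have hq : (0 : ℝ) < q := by exact_mod_cast h1.pos
    have h4 : (7 : ℝ) ≤ q := (Real.log_le_log_iff (by norm_num) hq).1 h2
    exact_mod_cast h4
  · rintro ⟨h1, h2, h3⟩
    refine ⟨h1, ?_, h3⟩
    have h4 : (7 : ℝ) ≤ q := by exact_mod_cast h2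
    exact Real.log_le_log (by norm_num) h4

theorem MN_log7 : Real.log 7 < 2 := by
  rw [Real.log_lt_iff_lt_exp (by norm_num)]
  have h2 : (2.7182818283 : ℝ) < Real.exp 1 := Real.exp_one_gt_d9
  have h3 : Real.exp 2 = Real.exp 1 * Real.exp 1 := by
    rw [← Real.exp_add]; norm_num
  rw [h3]
  nlinarith

open Classical in
/-- the weights on the natural numbers -/
noncomputable def MN_l (x : ℝ) (C : Finset ℕ → ℝ) (m : ℕ) : ℝ :=
  if Squarefree m then (-1) ^ (m.primeFactors ∩ P0 x).card * C (m.primeFactors \ P0 x) else 0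

theorem MN_l_prod (x : ℝ) (C : Finset ℕ → ℝ) (S : Finset ℕ) (hS : ∀ p ∈ S, p.Prime) :
    MN_l x C (∏ p ∈ S, p) = (-1) ^ (S ∩ P0 x).card * C (S \ P0 x) := by
  have h1 : Squarefree (∏ p ∈ S, p) := by
    refine Finset.squarefree_prod_of_pairwise_isCoprime (fun p hp q hq hpq => ?_) (fun p hp => ?_)
    · exact Nat.coprime_iff_isRelPrime.1 ((Nat.coprime_primes (hS p hp) (hS q hq)).2 hpq)
    · exact (hS p hp).prime.squarefree
  rw [MN_l, if_pos h1, Nat.primeFactors_prod hS]

theorem MN (hPA : PA_stmt) : MN_stmt := by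
  classical
  intro x H B C hx hxH hC1 hC2
  have hbig : ∀ p ∈ PB x H, 8 ≤ p := fun p hp => (hPA.2.2.1 x H hx).2.2.2 p hp |>.1
  have hdisj : Disjoint (P0 x) (PB x H) := (hPA.2.1 (Real.log 7) x H (by linarith [MN_log7]) hxH).2.1
  have hP0 := MN_P0 x hPA
  -- support
  have hsupp : ∀ m, MN_l x C m ≠ 0 → Squarefree m ∧ m.primeFactors \ P0 x ⊆ PB x H ∧
      ∑ p ∈ m.primeFactors \ P0 x, Real.log p ≤ B := by
    intro m hm
    rw [MN_l] at hm
    by_cases hs : Squarefree m
    · rw [if_pos hs] at hm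
      have h1 : C (m.primeFactors \ P0 x) ≠ 0 := right_ne_zero_of_mul hm
      exact ⟨hs, hC2 _ h1⟩
    · rw [if_neg hs] at hm
      exact absurd rfl hm
  have hle : ∀ m, MN_l x C m ≠ 0 → (m : ℝ) ≤ (∏ q ∈ P0 x, (q : ℝ)) * Real.exp B := by
    intro m hm
    obtain ⟨hs, hsub, hsum⟩ := hsupp m hm
    have h1 : (m : ℝ) = (∏ p ∈ m.primeFactors ∩ P0 x, (p : ℝ)) * ∏ p ∈ m.primeFactors \ P0 x, (p : ℝ) := by
      rw [Finset.prod_inter_mul_prod_sdiff]
      have h2 := Nat.prod_primeFactors_of_squarefree hs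
      conv_lhs => rw [← h2]
      push_cast
      rfl
    have h2 : ∏ p ∈ m.primeFactors ∩ P0 x, (p : ℝ) ≤ ∏ q ∈ P0 x, (q : ℝ) := by
      have h3 : ∏ p ∈ m.primeFactors ∩ P0 x, p ≤ ∏ q ∈ P0 x, q := by
        apply Nat.le_of_dvd
        · apply Finset.prod_pos
          intro q hq
          exact ((hP0 q).1 hq).1.pos
        · exact Finset.prod_dvd_prod_of_subset _ _ _ inter_subset_right
      have h4 : ((∏ p ∈ m.primeFactors ∩ P0 x, p : ℕ) : ℝ) ≤ ((∏ q ∈ P0 x, q : ℕ) : ℝ) :=
        Nat.cast_le.2 h3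
      rwa [Nat.cast_prod, Nat.cast_prod] at h4
    have h3 : ∏ p ∈ m.primeFactors \ P0 x, (p : ℝ) ≤ Real.exp B := by
      have h4 : ∏ p ∈ m.primeFactors \ P0 x, (p : ℝ) =
          Real.exp (∑ p ∈ m.primeFactors \ P0 x, Real.log p) := by
        rw [Real.exp_sum]
        apply Finset.prod_congr rfl
        intro p hp
        rw [Real.exp_log]
        have := (Nat.prime_of_mem_primeFactors (mem_sdiff.1 hp).1).pos
        exact_mod_cast this
      rw [h4]
      exact Real.exp_le_exp.2 hsum
    rw [h1]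
    exact mul_le_mul h2 h3 (by positivity) (by positivity)
  have hcop : ∀ m, MN_l x C m ≠ 0 → Nat.Coprime m 30 := by
    intro m hm
    obtain ⟨hs, hsub, hsum⟩ := hsupp m hm
    by_contra hcon
    obtain ⟨q, hq, hqm, hq30⟩ := Nat.Prime.not_coprime_iff_dvd.1 hcon
    have hq5 : q ≤ 5 := by
      have h1 : q ∣ 2 * 3 * 5 := by simpa using hq30
      rcases (Nat.Prime.dvd_mul hq).1 h1 with h2 | h2
      · rcases (Nat.Prime.dvd_mul hq).1 h2 with h3 | h3
        · exact (Nat.le_of_dvd (by norm_num) h3).trans (by norm_num)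
        · exact (Nat.le_of_dvd (by norm_num) h3).trans (by norm_num)
      · exact Nat.le_of_dvd (by norm_num) h2
    have hqf : q ∈ m.primeFactors := Nat.mem_primeFactors.2 ⟨hq, hqm, hs.ne_zero⟩
    by_cases hqP : q ∈ P0 x
    · have := ((hP0 q).1 hqP).2.1
      omega
    · have := hbig q (hsub (mem_sdiff.2 ⟨hqf, hqP⟩))
      omega
  -- the sum over the subsets
  have hsub : ∀ Γ : Finset ℕ, (∀ p ∈ Γ, p.Prime) → ∀ w : Finset ℕ → ℝ,
      (∀ S T, S ⊆ P0 x → T ⊆ PB x H → w (S ∪ T) = w S * w T) →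
      ∑ S ∈ Γ.powerset, MN_l x C (∏ p ∈ S, p) * w S =
        (∑ S ∈ (Γ ∩ P0 x).powerset, (-1) ^ S.card * w S) *
          ∑ F ∈ (Γ ∩ PB x H).powerset, C F * w F := by
    intro Γ hΓ w hw
    have h1 : ∑ S ∈ Γ.powerset, MN_l x C (∏ p ∈ S, p) * w S =
        ∑ S ∈ (Γ ∩ P0 x ∪ Γ ∩ PB x H).powerset, MN_l x C (∏ p ∈ S, p) * w S := by
      symm
      apply Finset.sum_subset
      · apply Finset.powerset_mono.2
        exact union_subset inter_subset_left inter_subset_left
      · intro S hS hS'
        rw [mem_powerset] at hS hS'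
        rw [MN_l_prod x C S (fun p hp => hΓ p (hS hp))]
        have h2 : C (S \ P0 x) = 0 := by
          by_contra hne
          apply hS'
          intro q hq
          rw [mem_union, mem_inter, mem_inter]
          by_cases hqP : q ∈ P0 x
          · exact Or.inl ⟨hS hq, hqP⟩
          · exact Or.inr ⟨hS hq, (hC2 _ hne).1 (mem_sdiff.2 ⟨hq, hqP⟩)⟩
        rw [h2, mul_zero, zero_mul]
    rw [h1, MN_split _ _ (hdisj.mono inter_subset_right inter_subset_right), Finset.sum_mul_sum]
    apply Finset.sum_congr rfl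
    intro S hS
    apply Finset.sum_congr rfl
    intro T hT
    rw [mem_powerset] at hS hT
    have hS1 : S ⊆ P0 x := hS.trans inter_subset_right
    have hT1 : T ⊆ PB x H := hT.trans inter_subset_right
    have h2 : (S ∪ T) ∩ P0 x = S := by
      ext q
      rw [mem_inter, mem_union]
      constructor
      · rintro ⟨h3 | h3, h4⟩
        · exact h3
        · exact absurd (hT1 h3) (disjoint_left.1 hdisj h4)
      · intro h3
        exact ⟨Or.inl h3, hS1 h3⟩
    have h3 : (S ∪ T) \ P0 x = T := by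
      ext q
      rw [mem_sdiff, mem_union]
      constructor
      · rintro ⟨h3 | h3, h4⟩
        · exact absurd (hS1 h3) h4
        · exact h3
      · intro h3
        exact ⟨Or.inr h3, fun h4 => disjoint_left.1 hdisj h4 (hT1 h3)⟩
    rw [MN_l_prod x C (S ∪ T), h2, h3, hw S T hS1 hT1]
    · ring
    · intro p hp
      rw [mem_union] at hp
      rcases hp with hp | hp
      · exact hΓ p (mem_inter.1 (hS hp)).1
      · exact hΓ p (mem_inter.1 (hT hp)).1
  have hsum : ∀ a : ℕ, 0 < a → ∑ m ∈ a.divisors, MN_l x C m =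
      (∑ S ∈ (a.primeFactors ∩ P0 x).powerset, (-1) ^ S.card) *
        ∑ F ∈ ((PB x H).filter fun p => p ∣ a).powerset, C F := by
    intro a ha
    rw [MN_div a ha.ne' _ (fun m hm => by rw [MN_l, if_neg hm])]
    have h1 := hsub a.primeFactors (fun p hp => Nat.prime_of_mem_primeFactors hp) (fun _ => 1)
      (fun _ _ _ _ => (mul_one 1).symm)
    simp only [mul_one] at h1
    rw [h1]
    congr 2
    ext F
    rw [mem_powerset, mem_powerset]
    have h2 : a.primeFactors ∩ PB x H = (PB x H).filter fun p => p ∣ a := by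
      ext q
      rw [mem_inter, mem_filter, Nat.mem_primeFactors]
      constructor
      · rintro ⟨⟨h3, h4, h5⟩, h6⟩
        exact ⟨h6, h4⟩
      · rintro ⟨h3, h4⟩
        exact ⟨⟨((hPA.1 x H q).1 h3).1, h4, ha.ne'⟩, h3⟩
    rw [h2]
  have halt : ∀ Γ : Finset ℕ, (∑ S ∈ Γ.powerset, (-1 : ℝ) ^ S.card) = if Γ = ∅ then 1 else 0 := by
    intro Γ
    have h1 := Finset.sum_powerset_neg_one_pow_card (x := Γ)
    have h2 := congrArg (fun z : ℤ => (z : ℝ)) h1
    push_cast at h2
    exact h2
  refine ⟨MN_l x C, ?_, ?_, ?_, ?_, ?_⟩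
  · intro m
    rw [MN_l]
    split_ifs
    · rw [abs_mul, abs_pow, abs_neg, abs_one, one_pow, one_mul]
      exact hC1 _
    · simp
  · intro m hm
    exact ⟨(hsupp m hm).1, hcop m hm, hle m hm⟩
  · intro a ha hno
    rw [hsum a ha, halt, if_pos, one_mul]
    rw [Finset.eq_empty_iff_forall_notMem]
    intro q hq
    rw [mem_inter, Nat.mem_primeFactors, hP0] at hq
    exact hno q hq.1.1 hq.2.2.1 hq.2.2.2 hq.1.2.1
  · intro a q ha hq hq7 hqx hqa
    rw [hsum a ha, halt, if_neg, zero_mul]
    intro h1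
    have h2 : q ∈ a.primeFactors ∩ P0 x := by
      rw [mem_inter, Nat.mem_primeFactors, hP0]
      exact ⟨⟨hq, hqa, ha.ne'⟩, hq, hq7, hqx⟩
    rw [h1] at h2
    exact notMem_empty q h2
  · intro M hM
    set Γ : Finset ℕ := P0 x ∪ PB x H with hΓ
    have hΓp : ∀ p ∈ Γ, p.Prime := by
      intro p hp
      rw [hΓ, mem_union] at hp
      rcases hp with hp | hp
      · exact ((hP0 p).1 hp).1
      · exact ((hPA.1 x H p).1 hp).1
    set a : ℕ := ∏ p ∈ Γ, p with ha
    have ha0 : a ≠ 0 := Finset.prod_ne_zero_iff.2 fun p hp => (hΓp p hp).ne_zero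
    have hapf : a.primeFactors = Γ := Nat.primeFactors_prod hΓp
    have h1 : ∑ m ∈ Icc 1 M, MN_l x C m / (Nat.totient m : ℝ) =
        ∑ m ∈ a.divisors, MN_l x C m / (Nat.totient m : ℝ) := by
      have h2 : ∑ m ∈ Icc 1 M, MN_l x C m / (Nat.totient m : ℝ) =
          ∑ m ∈ Icc 1 M ∩ a.divisors, MN_l x C m / (Nat.totient m : ℝ) := by
        symm
        apply Finset.sum_subset inter_subset_left
        intro m hm hm'
        have h3 : MN_l x C m = 0 := by
          by_contra hne
          obtain ⟨hs, hs2, -⟩ := hsupp m hne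
          apply hm'
          rw [mem_inter, Nat.mem_divisors]
          refine ⟨hm, ?_, ha0⟩
          rw [← Nat.prod_primeFactors_of_squarefree hs, ha]
          apply Finset.prod_dvd_prod_of_subset
          intro q hq
          rw [hΓ, mem_union]
          by_cases hqP : q ∈ P0 x
          · exact Or.inl hqP
          · exact Or.inr (hs2 (mem_sdiff.2 ⟨hq, hqP⟩))
        rw [h3, zero_div]
      rw [h2]
      apply Finset.sum_subset inter_subset_right
      intro m hm hm'
      have h3 : MN_l x C m = 0 := by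
        by_contra hne
        apply hm'
        rw [mem_inter, mem_Icc]
        refine ⟨⟨Nat.pos_of_mem_divisors hm, ?_⟩, hm⟩
        have h4 := (hle m hne).trans hM
        exact_mod_cast h4
      rw [h3, zero_div]
    rw [h1, MN_div a ha0 _ (fun m hm => by rw [MN_l, if_neg hm, zero_div]), hapf]
    have htot : ∀ S : Finset ℕ, (∀ p ∈ S, p.Prime) →
        1 / (Nat.totient (∏ p ∈ S, p) : ℝ) = g S := by
      intro S hS
      induction S using Finset.induction_on with
      | empty => simp [g]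
      | insert p S hpS ih =>
        have hp : p.Prime := hS p (mem_insert_self p S)
        have h2 : Nat.Coprime p (∏ q ∈ S, q) := by
          apply Nat.Coprime.prod_right
          intro q hq
          exact (Nat.coprime_primes hp (hS q (mem_insert_of_mem hq))).2 (fun h => hpS (h ▸ hq))
        rw [Finset.prod_insert hpS, Nat.totient_mul h2, Nat.totient_prime hp, g,
          Finset.prod_insert hpS, ← g, ← ih (fun q hq => hS q (mem_insert_of_mem hq))]
        have h3 : ((p - 1 : ℕ) : ℝ) = (p : ℝ) - 1 := by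
          rw [Nat.cast_sub hp.one_lt.le, Nat.cast_one]
        push_cast [h3]
        rw [one_div_mul_one_div]
    have h2 : ∀ S ∈ Γ.powerset, MN_l x C (∏ p ∈ S, p) / (Nat.totient (∏ p ∈ S, p) : ℝ) =
        MN_l x C (∏ p ∈ S, p) * g S := by
      intro S hS
      rw [mem_powerset] at hS
      rw [← htot S (fun p hp => hΓp p (hS hp)), mul_one_div]
    rw [Finset.sum_congr rfl h2, hsub Γ hΓp g]
    · have h3 : Γ ∩ P0 x = P0 x := by
        rw [inter_eq_right, hΓ]
        exact subset_union_left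
      have h4 : Γ ∩ PB x H = PB x H := by
        rw [inter_eq_right, hΓ]
        exact subset_union_right
      rw [h3, h4]
      congr 1
      rw [V]
      have h5 : ∀ p ∈ P0 x, (1 - 1 / ((p : ℝ) - 1)) = 1 + -(1 / ((p : ℝ) - 1)) := by
        intro p _
        ring
      rw [Finset.prod_congr rfl h5, Finset.prod_one_add]
      apply Finset.sum_congr rfl
      intro S _
      rw [g, Finset.prod_neg]
    · intro S T hS hT
      rw [g, g, g, Finset.prod_union (hdisj.mono hS hT)]

end Pool.Agent.CHS
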